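import Pool.Agent.Helper35.HS3.GoalsA

/-!
# EN2: a function of `P` with an energy inequality (project HS3)
-/

namespace Pool.Agent.Helper40.HS3.EN2

open MeasureTheory Set Filter Topology Metric
open scoped ContDiff
open Pool.Agent.Helper35.HS3

/-- `s - 2 + 1 / s`, `s = √(1 + max 0 t)`. -/
noncomputable def mu (t : ℝ) : ℝ := √(1 + max 0 t) - 2 + (√(1 + max 0 t))⁻¹

/-- The derivative of `mu`. -/
noncomputable def nu (t : ℝ) : ℝ := max 0 t / (2 * (1 + max 0 t) * √(1 + max 0 t))

theorem one_le_s (t : ℝ) : 1 ≤ √(1 + max 0 t) := by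
  rw [Real.one_le_sqrt]
  have := le_max_left 0 t
  linarith

theorem s_sq (t : ℝ) : √(1 + max 0 t) ^ 2 = 1 + max 0 t := by
  have := le_max_left 0 t
  exact Real.sq_sqrt (by linarith)

theorem continuous_mu : Continuous mu := by
  unfold mu
  have h : Continuous fun t : ℝ => √(1 + max 0 t) := by fun_prop
  refine (h.sub continuous_const).add (h.inv₀ fun t => ?_)
  have := one_le_s t
  positivity

theorem continuous_nu : Continuous nu := by
  unfold nu
  refine Continuous.div (by fun_prop) (by fun_prop) fun t => ?_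
  have h1 := one_le_s t
  have h2 := le_max_left 0 t
  positivity

theorem hasDerivAt_mu (t : ℝ) : HasDerivAt mu (nu t) t := by
  have hne : ∀ y, y ≠ (0 : ℝ) → HasDerivAt mu (nu y) y := by
    intro y hy
    rcases lt_or_gt_of_ne hy with h | h
    · have e : mu =ᶠ[𝓝 y] fun _ => 0 := by
        filter_upwards [Iio_mem_nhds h] with s hs
        unfold mu
        rw [max_eq_left (le_of_lt hs)]
        norm_num
      have e2 : nu y = 0 := by
        unfold nu
        rw [max_eq_left h.le]
        simp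
      rw [e2]
      exact (hasDerivAt_const y (0 : ℝ)).congr_of_eventuallyEq e
    · have e : mu =ᶠ[𝓝 y] fun s => √(1 + s) - 2 + (√(1 + s))⁻¹ := by
        filter_upwards [Ioi_mem_nhds h] with s hs
        unfold mu
        rw [max_eq_right (le_of_lt hs)]
      have h1 : (1 : ℝ) + y ≠ 0 := by positivity
      have h2 : HasDerivAt (fun s : ℝ => 1 + s) 1 y := by
        simpa using (hasDerivAt_id y).const_add 1
      have h3 : HasDerivAt (fun s : ℝ => √(1 + s)) (1 / (2 * √(1 + y))) y := h2.sqrt h1
      have hs : √(1 + y) ≠ 0 := by positivity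
      have h4 := (h3.sub_const 2).add (h3.inv hs)
      have h5 := h4.congr_of_eventuallyEq e
      refine h5.congr_deriv ?_
      unfold nu
      rw [max_eq_right h.le]
      have hsq : √(1 + y) ^ 2 = 1 + y := Real.sq_sqrt (by positivity)
      rw [hsq]
      field_simp
      ring
  by_cases h0 : t = 0
  · subst h0
    exact hasDerivAt_of_hasDerivAt_of_ne hne continuous_mu.continuousAt continuous_nu.continuousAt
  · exact hne t h0

theorem contDiff_mu : ContDiff ℝ 1 mu := by
  rw [contDiff_one_iff_deriv]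
  refine ⟨fun t => (hasDerivAt_mu t).differentiableAt, ?_⟩
  have : deriv mu = nu := by
    funext t
    exact (hasDerivAt_mu t).deriv
  rw [this]
  exact continuous_nu

theorem mu_eq (t : ℝ) : mu t = (√(1 + max 0 t) - 1) ^ 2 / √(1 + max 0 t) := by
  unfold mu
  have := one_le_s t
  field_simp
  ring

theorem mu_nonneg (t : ℝ) : 0 ≤ mu t := by
  rw [mu_eq]
  positivity

theorem mu_pos (t : ℝ) : 0 < mu t ↔ 0 < t := by
  rw [mu_eq]
  have h1 := one_le_s t
  constructor
  · intro h
    by_contra hc
    rw [max_eq_left (not_lt.1 hc)] at h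
    norm_num at h
  · intro h
    have h2 : 1 < √(1 + max 0 t) := by
      rw [max_eq_right h.le, Real.lt_sqrt (by norm_num)]
      linarith
    have h3 : 0 < √(1 + max 0 t) - 1 := by linarith
    positivity

theorem mu_of_nonpos {t : ℝ} (h : t ≤ 0) : mu t = 0 := by
  rw [mu_eq, max_eq_left h]
  norm_num

theorem mu_sq_le (t : ℝ) : mu t ^ 2 ≤ max 0 t := by
  have h1 := one_le_s t
  have h2 := s_sq t
  rw [mu_eq]
  set s := √(1 + max 0 t) with hs
  have h3 : max 0 t = s ^ 2 - 1 := by linarith
  rw [h3, div_pow, div_le_iff₀ (by positivity)]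
  have h4 : (s - 1) ^ 3 ≤ s ^ 3 := by
    have : 0 ≤ s - 1 := by linarith
    exact pow_le_pow_left₀ this (by linarith) 3
  have h5 : (s - 1) ^ 3 ≤ s ^ 2 * (s + 1) := by
    nlinarith [sq_nonneg s]
  have h6 : 0 ≤ s - 1 := by linarith
  nlinarith [mul_le_mul_of_nonneg_left h5 h6]

theorem mu_sq_ge (t : ℝ) : max 0 t ^ 4 / (1 + max 0 t) ^ 3 ≤ 16 * mu t ^ 2 := by
  have h1 := one_le_s t
  have h2 := s_sq t
  rw [mu_eq]
  set s := √(1 + max 0 t) with hs
  have h3 : max 0 t = s ^ 2 - 1 := by linarith
  rw [h3]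
  have h4 : (1 : ℝ) + (s ^ 2 - 1) = s ^ 2 := by ring
  rw [h4, div_le_iff₀ (by positivity)]
  have h5 : (s + 1) ^ 4 ≤ (2 * s) ^ 4 := pow_le_pow_left₀ (by linarith) (by linarith) 4
  have h6 : 16 * ((s - 1) ^ 2 / s) ^ 2 * (s ^ 2) ^ 3 = (s - 1) ^ 4 * (2 * s) ^ 4 := by
    field_simp
    ring
  rw [h6]
  have h7 : (s ^ 2 - 1) ^ 4 = (s - 1) ^ 4 * (s + 1) ^ 4 := by ring
  rw [h7]
  have h8 : 0 ≤ (s - 1) ^ 4 := by positivity
  exact mul_le_mul_of_nonneg_left h5 h8

theorem nu_sq (t : ℝ) : nu t ^ 2 = max 0 t ^ 2 / (1 + max 0 t) ^ 3 / 4 := by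
  have h2 := s_sq t
  have h3 := le_max_left 0 t
  unfold nu
  rw [div_pow, mul_pow, h2]
  have : (0 : ℝ) < 1 + max 0 t := by linarith
  field_simp
  ring

theorem hasCompactSupport_gsq {ζ : E → ℝ} (h : HasCompactSupport ζ) :
    HasCompactSupport (gsq ζ) := by
  have h1 : HasCompactSupport (fderiv ℝ ζ) := h.fderiv ℝ
  exact h1.comp_left (g := fun L : E →L[ℝ] ℝ => ∑ i, L (bv i) ^ 2) (by simp)

theorem proof : EN1_stmt → BOCH_stmt → EN2_stmt := by
  intro hE hB f a A K u hN hu heq k hk
  obtain ⟨C, hC, hEn⟩ := hE f a A K u hN hu heq k hk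
  have hP : ContDiff ℝ 1 (PP f a u) := (hB f a u hN.smooth hu heq).1
  have hPk : ContDiff ℝ 1 fun x => PP f a u x - k := hP.sub contDiff_const
  have hm : ContDiff ℝ 1 fun x => mu (PP f a u x - k) := contDiff_mu.comp hPk
  refine ⟨fun x => mu (PP f a u x - k), 4 * C, hm, fun x => mu_nonneg _, fun x => ?_,
    fun x => ?_, ?_⟩
  · rw [mu_pos, sub_pos]
  · rcases le_or_gt (PP f a u x - k) 0 with h | h
    · simp only
      rw [mu_of_nonpos h]
      have := gsq_nonneg u x
      simp only [ne_eq, OfNat.ofNat_ne_zero, not_false_eq_true, zero_pow]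
      linarith
    · have h1 := mu_sq_le (PP f a u x - k)
      rw [max_eq_right h.le] at h1
      have h2 : PP f a u x ≤ gsq u x / 2 := by
        unfold PP
        have := hN.Fp_nonneg (u x)
        linarith
      simp only
      linarith
  · intro ζ hζ hc
    have hgm : ∀ x, gsq (fun x => mu (PP f a u x - k)) x =
        (max 0 (PP f a u x - k) ^ 2 / (1 + max 0 (PP f a u x - k)) ^ 3) / 4 *
          gsq (PP f a u) x := by
      intro x
      unfold gsq
      rw [Finset.mul_sum]
      refine Finset.sum_congr rfl fun i _ => ?_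
      rw [pd_comp (H := mu) (u := fun y => PP f a u y - k) (hasDerivAt_mu _) (diff_of_one hPk x),
        pd_sub (diff_of_one hP x) (by fun_prop), pd_const, sub_zero, mul_pow, nu_sq]
    have e1 : ∫ x, ζ x ^ 2 * gsq (fun x => mu (PP f a u x - k)) x =
        (1 / 4) * ∫ x, ζ x ^ 2 * (max 0 (PP f a u x - k) ^ 2 /
          (1 + max 0 (PP f a u x - k)) ^ 3) * gsq (PP f a u) x := by
      rw [← integral_const_mul]
      refine integral_congr_ae (Eventually.of_forall fun x => ?_)
      simp only
      rw [hgm x]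
      ring
    rw [e1]
    have hcg : Continuous fun x => max 0 (PP f a u x - k) :=
      continuous_const.max hPk.continuous
    have i1 : Integrable fun x => (max 0 (PP f a u x - k) ^ 4 /
        (1 + max 0 (PP f a u x - k)) ^ 3) * gsq ζ x := by
      refine Continuous.integrable_of_hasCompactSupport ?_ (hasCompactSupport_gsq hc).mul_left
      refine Continuous.mul (Continuous.div (hcg.pow 4) ((continuous_const.add hcg).pow 3)
        fun x => ?_) (continuous_gsq hζ)
      have := le_max_left 0 (PP f a u x - k)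
      positivity
    have i2 : Integrable fun x => mu (PP f a u x - k) ^ 2 * gsq ζ x :=
      ((hm.continuous.pow 2).mul (continuous_gsq hζ)).integrable_of_hasCompactSupport
        (hasCompactSupport_gsq hc).mul_left
    have h1 : ∫ x, (max 0 (PP f a u x - k) ^ 4 / (1 + max 0 (PP f a u x - k)) ^ 3) * gsq ζ x ≤
        ∫ x, 16 * (mu (PP f a u x - k) ^ 2 * gsq ζ x) := by
      refine integral_mono i1 (i2.const_mul 16) fun x => ?_
      simp only
      have := mul_le_mul_of_nonneg_right (mu_sq_ge (PP f a u x - k)) (gsq_nonneg ζ x)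
      linarith
    rw [integral_const_mul] at h1
    have h2 := hEn ζ hζ hc
    have h3 := mul_le_mul_of_nonneg_left h1 hC.le
    simp only
    linarith

end Pool.Agent.Helper40.HS3.EN2
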