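import Pool.Agent.Helper35.HS3.GoalsB

/-!
# MEAS: the P-function is above a level `k > β²/2` only on a set of density `0` (project HS3)
-/

namespace Pool.Agent.Helper40.HS3.MEAS

open MeasureTheory Set Filter Topology Metric
open scoped ContDiff
open Pool.Agent.Helper35.HS3

theorem gsub_nonneg (γ : ℝ) (u : E → ℝ) (x : E) : 0 ≤ gsub γ u x := by
  unfold gsub
  positivity

theorem continuous_gsub {γ : ℝ} {u : E → ℝ} (hu : ContDiff ℝ 1 u) : Continuous (gsub γ u) := by
  unfold gsub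
  have h0 : Continuous (pd 0 u) := continuous_pd hu
  have h1 : Continuous (pd 1 u) := continuous_pd hu
  have h2 : Continuous (pd 2 u) := continuous_pd hu
  fun_prop

theorem markov {g : E → ℝ} (hg : Continuous g) (h0 : ∀ x, 0 ≤ g x) (τ R c : ℝ) :
    c * volume.real ({x | c ≤ g x} ∩ (Hs τ ∩ ball (0 : E) R)) ≤
      ∫ x in Hs τ ∩ ball (0 : E) R, g x := by
  have h := mul_meas_ge_le_integral_of_nonneg (μ := volume.restrict (Hs τ ∩ ball (0 : E) R))
    (f := g) (Eventually.of_forall h0) (integrableOn_Hs_ball hg τ R) c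
  have hm : MeasurableSet {x | c ≤ g x} := (isClosed_le continuous_const hg).measurableSet
  rw [measureReal_restrict_apply hm] at h
  exact h

theorem gsub_ge {γ L : ℝ} {u : E → ℝ} {x : E} (hγ : 0 ≤ γ) (hL : γ < L)
    (h : L ^ 2 < gsq u x) : (L - γ) ^ 2 ≤ gsub γ u x := by
  by_contra hc
  push Not at hc
  have h1 : gsq u x = γ ^ 2 + 2 * γ * (pd 0 u x - γ) + gsub γ u x := by
    unfold gsq gsub
    rw [Fin.sum_univ_three]
    ring
  have h2 : (pd 0 u x - γ) ^ 2 < (L - γ) ^ 2 := by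
    refine lt_of_le_of_lt ?_ hc
    unfold gsub
    nlinarith [sq_nonneg (pd 1 u x), sq_nonneg (pd 2 u x)]
  have h3 : pd 0 u x - γ < L - γ := (abs_lt_of_sq_lt_sq' h2 (by linarith)).2
  nlinarith

theorem vol_ball_ne_top (s : Set E) (R : ℝ) (h : s ⊆ ball (0 : E) R) : volume s ≠ ⊤ :=
  (lt_of_le_of_lt (measure_mono h) measure_ball_lt_top).ne

theorem proof : SMA_stmt → STR_stmt → MEAS_stmt := by
  intro hSMA hSTR f a A K u α β hN hS hBD hG k hk ε hε
  have hstr := hSTR f a A K u α β hN hS hBD hG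
  have hu1 : ContDiff ℝ 1 u := hS.smooth.of_le (by norm_num)
  have hM : 0 ≤ Fp f a A := hN.Fp_nonneg A
  have hβ := hBD.β_nonneg
  have hα : 0 ≤ α := hβ.trans hBD.le
  have hk0 : 0 < k := lt_of_le_of_lt (by positivity) hk
  set L₁ := √(2 * k) with hL₁
  set L₂ := √(2 * k + 2 * Fp f a A) with hL₂
  have hL₁s : L₁ ^ 2 = 2 * k := Real.sq_sqrt (by positivity)
  have hL₂s : L₂ ^ 2 = 2 * k + 2 * Fp f a A := Real.sq_sqrt (by positivity)
  have hL₁β : β < L₁ := Real.lt_sqrt_of_sq_lt (by linarith)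
  have hL₂α : α < L₂ := Real.lt_sqrt_of_sq_lt (by linarith)
  have hc₁ : 0 < (L₁ - β) ^ 2 := by
    have : 0 < L₁ - β := by linarith
    positivity
  have hc₂ : 0 < (L₂ - α) ^ 2 := by
    have : 0 < L₂ - α := by linarith
    positivity
  -- mass of the bad sets
  have key : ∀ c, 0 < c → ∃ R₀ : ℝ, ∀ R ≥ R₀,
      volume.real ({x | c ≤ gsub α u x} ∩ (Hs 1 ∩ ball (0 : E) R)) ≤ ε / 3 * R ^ 3 ∧
      volume.real ({x | c ≤ gsub β u x} ∩ (Hs (-1) ∩ ball (0 : E) R)) ≤ ε / 3 * R ^ 3 := by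
    intro c hc
    obtain ⟨R₀, hR₀⟩ := hG (c * (ε / 3)) (by positivity)
    refine ⟨R₀, fun R hR => ?_⟩
    have h := hR₀ R hR
    have i1 : 0 ≤ ∫ x in Hs 1 ∩ ball (0 : E) R, gsub α u x :=
      integral_nonneg fun x => gsub_nonneg α u x
    have i2 : 0 ≤ ∫ x in Hs (-1) ∩ ball (0 : E) R, gsub β u x :=
      integral_nonneg fun x => gsub_nonneg β u x
    have m1 := markov (continuous_gsub (γ := α) hu1) (gsub_nonneg α u) 1 R c
    have m2 := markov (continuous_gsub (γ := β) hu1) (gsub_nonneg β u) (-1) R c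
    constructor
    · refine le_of_mul_le_mul_left ?_ hc
      linarith
    · refine le_of_mul_le_mul_left ?_ hc
      linarith
  -- the left half-space
  have hleft : ∀ x : E, k < PP f a u x → (L₁ - β) ^ 2 ≤ gsub β u x := by
    intro x hx
    refine gsub_ge hβ hL₁β ?_
    rw [hL₁s]
    unfold PP at hx
    have := hN.Fp_nonneg (u x)
    linarith
  have hright : ∀ x : E, k < PP f a u x → A ≤ u x → (L₂ - α) ^ 2 ≤ gsub α u x := by
    intro x hx hA
    refine gsub_ge hα hL₂α ?_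
    rw [hL₂s]
    unfold PP at hx
    rw [hN.Fp_right hA] at hx
    linarith
  have hplane : volume.real {x : E | x 0 = 0} = 0 := by
    unfold Measure.real
    rw [volume_plane]
    simp
  rcases hα.eq_or_lt with h0 | h0
  · -- `α = 0`
    have hβ0 : β = 0 := le_antisymm (by rw [h0]; exact hBD.le) hβ
    have hαβ : α = β := by rw [← h0, hβ0]
    obtain ⟨R₁, hR₁⟩ := key _ hc₁
    refine ⟨max R₁ 0, fun R hR => ?_⟩
    have hR0 : 0 ≤ R := (le_max_right _ _).trans hR
    obtain ⟨m1, m2⟩ := hR₁ R ((le_max_left _ _).trans hR)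
    set S₁ := {x | (L₁ - β) ^ 2 ≤ gsub α u x} ∩ (Hs 1 ∩ ball (0 : E) R) with hS₁
    set S₂ := {x | (L₁ - β) ^ 2 ≤ gsub β u x} ∩ (Hs (-1) ∩ ball (0 : E) R) with hS₂
    have hsub : {x | x ∈ ball (0 : E) R ∧ k < PP f a u x} ⊆ {x : E | x 0 = 0} ∪ (S₁ ∪ S₂) := by
      rintro x ⟨hxR, hxk⟩
      rcases lt_trichotomy (x 0) 0 with h | h | h
      · refine Or.inr (Or.inr ⟨hleft x hxk, ?_, hxR⟩)
        show 0 < -1 * x 0
        linarith
      · exact Or.inl h
      · refine Or.inr (Or.inl ⟨?_, ?_, hxR⟩)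
        · show (L₁ - β) ^ 2 ≤ gsub α u x
          rw [hαβ]
          exact hleft x hxk
        · show 0 < 1 * x 0
          linarith
    have hfin : volume ({x : E | x 0 = 0} ∪ (S₁ ∪ S₂)) ≠ ⊤ := by
      refine (measure_union_lt_top ?_ ?_).ne
      · rw [volume_plane]
        exact ENNReal.zero_lt_top
      · refine lt_of_le_of_lt (measure_mono ?_) (measure_ball_lt_top (x := (0 : E)) (r := R))
        rintro x (hx | hx)
        · exact hx.2.2
        · exact hx.2.2
    have h1 := measureReal_mono hsub hfin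
    have h2 := measureReal_union_le (μ := volume) {x : E | x 0 = 0} (S₁ ∪ S₂)
    have h3 := measureReal_union_le (μ := volume) S₁ S₂
    have h4 : 0 ≤ ε / 3 * R ^ 3 := by positivity
    linarith
  · obtain ⟨R₁, hR₁⟩ := key _ hc₁
    obtain ⟨R₂, hR₂⟩ := key _ hc₂
    obtain ⟨R₃, hR₃⟩ := hSMA u α β A hS.smooth.continuous hBD h0 hN.A_pos (ε / 3) (by positivity)
    refine ⟨max (max R₁ R₂) (max R₃ 0), fun R hR => ?_⟩
    have hR0 : 0 ≤ R := (le_max_right _ _).trans ((le_max_right _ _).trans hR)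
    obtain ⟨-, m2⟩ := hR₁ R ((le_max_left _ _).trans ((le_max_left _ _).trans hR))
    obtain ⟨m1, -⟩ := hR₂ R ((le_max_right _ _).trans ((le_max_left _ _).trans hR))
    have m3 := hR₃ R ((le_max_left _ _).trans ((le_max_right _ _).trans hR))
    set S₁ := {x | (L₂ - α) ^ 2 ≤ gsub α u x} ∩ (Hs 1 ∩ ball (0 : E) R) with hS₁
    set S₂ := {x | (L₁ - β) ^ 2 ≤ gsub β u x} ∩ (Hs (-1) ∩ ball (0 : E) R) with hS₂
    set S₃ := {x | x ∈ Hs 1 ∧ x ∈ ball (0 : E) R ∧ u x < A} with hS₃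
    have hsub : {x | x ∈ ball (0 : E) R ∧ k < PP f a u x} ⊆
        {x : E | x 0 = 0} ∪ (S₁ ∪ (S₂ ∪ S₃)) := by
      rintro x ⟨hxR, hxk⟩
      rcases lt_trichotomy (x 0) 0 with h | h | h
      · refine Or.inr (Or.inr (Or.inl ⟨hleft x hxk, ?_, hxR⟩))
        show 0 < -1 * x 0
        linarith
      · exact Or.inl h
      · have hx1 : x ∈ Hs 1 := by
          show 0 < 1 * x 0
          linarith
        rcases le_or_gt A (u x) with hA | hA
        · exact Or.inr (Or.inl ⟨hright x hxk hA, hx1, hxR⟩)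
        · exact Or.inr (Or.inr (Or.inr ⟨hx1, hxR, hA⟩))
    have hfin : volume ({x : E | x 0 = 0} ∪ (S₁ ∪ (S₂ ∪ S₃))) ≠ ⊤ := by
      refine (measure_union_lt_top ?_ ?_).ne
      · rw [volume_plane]
        exact ENNReal.zero_lt_top
      · refine lt_of_le_of_lt (measure_mono ?_) (measure_ball_lt_top (x := (0 : E)) (r := R))
        rintro x (hx | hx | hx)
        · exact hx.2.2
        · exact hx.2.2
        · exact hx.2.1
    have h1 := measureReal_mono hsub hfin
    have h2 := measureReal_union_le (μ := volume) {x : E | x 0 = 0} (S₁ ∪ (S₂ ∪ S₃))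
    have h3 := measureReal_union_le (μ := volume) S₁ (S₂ ∪ S₃)
    have h4 := measureReal_union_le (μ := volume) S₂ S₃
    linarith

end Pool.Agent.Helper40.HS3.MEAS
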