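import Pool.Agent.Helper35.HS3.GoalsC

/-!
# ODE1: a one-dimensional differential inequality (project HS3)
-/

namespace Pool.Agent.Helper40.HS3.ODE1

open MeasureTheory Set Filter Topology Metric
open scoped ContDiff
open Pool.Agent.Helper35.HS3

theorem hsub {φ : ℝ → ℝ} {φ' c t : ℝ} (h : HasDerivAt φ φ' t) :
    HasDerivAt (fun t => φ t - c * t) (φ' - c) t := by
  have h2 : HasDerivAt (fun y : ℝ => c * y) (c * 1) t := (hasDerivAt_id t).const_mul c
  exact (h.sub h2).congr_deriv (by ring)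

/-- A bounded convex function on `(-∞, 0]` is nondecreasing there. -/
theorem deriv_nonneg_of_bdd {G : ℝ → ℝ} {b c : ℝ} (hG : ContDiff ℝ 2 G)
    (h2 : ∀ s, 0 ≤ deriv (deriv G) s) (hb : ∀ s, s ≤ 0 → b ≤ G s) (hc : ∀ s, s ≤ 0 → G s ≤ c)
    (s₀ : ℝ) (hs₀ : s₀ ≤ 0) : 0 ≤ deriv G s₀ := by
  by_contra hneg
  push Not at hneg
  have hd : Differentiable ℝ G := hG.differentiable (by norm_num)
  have hdd : Differentiable ℝ (deriv G) := hG.differentiable_deriv_two
  have hm : Monotone (deriv G) := monotone_of_deriv_nonneg hdd h2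
  set m := deriv G s₀ with hmdef
  have hφ : ∀ t, HasDerivAt (fun t => G t - m * t) (deriv G t - m) t := by
    intro t
    exact hsub (hd t).hasDerivAt
  have hanti : AntitoneOn (fun t => G t - m * t) (Iic s₀) := by
    refine antitoneOn_of_deriv_nonpos (convex_Iic s₀) ?_ ?_ ?_
    · exact fun t _ => (hφ t).continuousAt.continuousWithinAt
    · exact fun t _ => (hφ t).differentiableAt.differentiableWithinAt
    · intro t ht
      rw [interior_Iic] at ht
      rw [(hφ t).deriv]
      have := hm (le_of_lt ht)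
      linarith
  have hcb : b ≤ c := (hb 0 le_rfl).trans (hc 0 le_rfl)
  set s := s₀ + (c - b + 1) / m with hs
  have hq : (c - b + 1) / m < 0 := div_neg_of_pos_of_neg (by linarith) hneg
  have hss : s ≤ s₀ := by linarith
  have h := hanti (mem_Iic.2 hss) (mem_Iic.2 le_rfl) hss
  simp only at h
  have e : m * s = m * s₀ + (c - b + 1) := by
    rw [hs, mul_add, mul_div_cancel₀ _ hneg.ne]
  have h1 := hc s (hss.trans hs₀)
  have h3 := hb s₀ hs₀
  linarith

theorem Fp_pos {f : ℝ → ℝ} {a A K : ℝ} (hN : Nl f a A K) (ha : a < 0)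
    (hf : ∀ t, a < t → t ≤ 0 → 0 < f t) {t : ℝ} (ht : a < t) : 0 < Fp f a t := by
  have h1 : 0 < Fp f a (min t 0) := by
    unfold Fp
    refine intervalIntegral.intervalIntegral_pos_of_pos_on (hN.cont.intervalIntegrable _ _) ?_
      (lt_min ht ha)
    intro x hx
    exact hf x hx.1 (hx.2.le.trans (min_le_right _ _))
  exact h1.trans_le (hN.Fp_mono (min_le_left _ _))

theorem proof : ODE1_stmt := by
  intro f a A K g H hN hf hg hyp hH s₁ s₂ hs12 hs2
  have ha : a < 0 := (hg 0 le_rfl).1.trans_le (hg 0 le_rfl).2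
  choose! G hG2 hGg hGdd hGf using hyp
  have hlow : ∀ ε > 0, ∀ s, s ≤ 0 → a - ε ≤ G ε s := by
    intro ε hε s hs
    have h1 := (abs_le.1 (hGg ε hε s)).1
    have h2 := (hg s hs).1
    linarith
  have hupp : ∀ ε > 0, ∀ s, s ≤ 0 → G ε s ≤ ε := by
    intro ε hε s hs
    have h1 := (abs_le.1 (hGg ε hε s)).2
    have h2 := (hg s hs).2
    linarith
  have hG' : ∀ ε > 0, ∀ s, s ≤ 0 → 0 ≤ deriv (G ε) s := fun ε hε =>
    deriv_nonneg_of_bdd (hG2 ε hε) (hGdd ε hε) (hlow ε hε) (hupp ε hε)
  have hGd : ∀ ε > 0, Differentiable ℝ (G ε) := fun ε hε =>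
    (hG2 ε hε).differentiable (by norm_num)
  have hGdd' : ∀ ε > 0, Differentiable ℝ (deriv (G ε)) := fun ε hε =>
    (hG2 ε hε).differentiable_deriv_two
  -- `G` is monotone on the half-line
  have hGm : ∀ ε > 0, MonotoneOn (G ε) (Iic 0) := by
    intro ε hε
    refine monotoneOn_of_deriv_nonneg (convex_Iic 0) (hGd ε hε).continuous.continuousOn
      (hGd ε hε).differentiableOn ?_
    intro x hx
    rw [interior_Iic] at hx
    exact hG' ε hε x (le_of_lt hx)
  have hgm : ∀ s t, s ≤ t → t ≤ 0 → g s ≤ g t := by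
    intro s t hst ht
    refine le_of_forall_pos_le_add fun δ hδ => ?_
    have hε : 0 < δ / 2 := by positivity
    have h1 := (abs_le.1 (hGg _ hε s)).1
    have h2 := (abs_le.1 (hGg _ hε t)).2
    have h3 := hGm _ hε (mem_Iic.2 (hst.trans ht)) (mem_Iic.2 ht) hst
    linarith
  -- `g` comes close to `a`
  have hinf : ∀ t, a < t → ∃ s, s ≤ 0 ∧ g s ≤ t := by
    intro t ht
    by_contra hcon
    push Not at hcon
    have ht0 : t < 0 := (hcon 0 le_rfl).trans_le (hg 0 le_rfl).2
    obtain ⟨x₀, hx₀, hmin⟩ := isCompact_Icc.exists_isMinOn (nonempty_Icc.2 ht0.le)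
      (hN.cont.continuousOn (s := Icc t 0))
    have hc : 0 < f x₀ := hf x₀ (ht.trans_le hx₀.1) hx₀.2
    set c := f x₀ with hcdef
    have hε : 0 < c / 2 := by positivity
    have h2 : ∀ s, s ≤ 0 → c / 2 ≤ deriv (deriv (G (c / 2))) s := by
      intro s hs
      have h3 := hGf _ hε s
      have h4 : c ≤ f (g s) := hmin ⟨(hcon s hs).le, (hg s hs).2⟩
      linarith
    have hφ : ∀ t, HasDerivAt (fun t => deriv (G (c / 2)) t - c / 2 * t)
        (deriv (deriv (G (c / 2))) t - c / 2) t := by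
      intro t
      exact hsub ((hGdd' _ hε) t).hasDerivAt
    have hmono : MonotoneOn (fun t => deriv (G (c / 2)) t - c / 2 * t) (Iic 0) := by
      refine monotoneOn_of_deriv_nonneg (convex_Iic 0)
        (fun t _ => (hφ t).continuousAt.continuousWithinAt)
        (fun t _ => (hφ t).differentiableAt.differentiableWithinAt) ?_
      intro x hx
      rw [interior_Iic] at hx
      rw [(hφ x).deriv]
      have := h2 x (le_of_lt hx)
      linarith
    set m := deriv (G (c / 2)) 0 with hm
    have hm0 : 0 ≤ m := hG' _ hε 0 le_rfl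
    set s := -((m + 1) / (c / 2)) with hs
    have hs0 : s ≤ 0 := by
      rw [hs, neg_nonpos]
      positivity
    have h5 := hmono (mem_Iic.2 hs0) (mem_Iic.2 le_rfl) hs0
    simp only [mul_zero, sub_zero] at h5
    have h6 := hG' _ hε s hs0
    have h7 : c / 2 * s = -(m + 1) := by
      rw [hs, mul_neg, mul_div_cancel₀ _ hε.ne']
    rw [h7] at h5
    linarith
  -- the energy inequality
  have hK := hN.K_pos
  have hen : ∀ ε > 0, ∀ s, s ≤ 0 →
      Fp f a (G ε s) - (Fp f a (a + 2 * ε) + (1 + K) * ε * (2 * ε - a)) ≤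
        deriv (G ε) s ^ 2 / 2 := by
    intro ε hε s hs
    have hQ : ∀ t, HasDerivAt (fun t => deriv (G ε) t ^ 2 / 2 - Fp f a (G ε t) +
        (1 + K) * ε * G ε t) (deriv (G ε) t * (deriv (deriv (G ε)) t - f (G ε t) +
        (1 + K) * ε)) t := by
      intro t
      have e1 := (((hGdd' ε hε) t).hasDerivAt.pow 2).div_const 2
      have e2 : HasDerivAt (fun t => Fp f a (G ε t)) (f (G ε t) * deriv (G ε) t) t :=
        (hasDerivAt_Fp hN.cont a (G ε t)).comp t ((hGd ε hε) t).hasDerivAt
      have e3 := (((hGd ε hε) t).hasDerivAt).const_mul ((1 + K) * ε)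
      refine ((e1.sub e2).add e3).congr_deriv ?_
      simp only [Nat.cast_ofNat, Nat.add_one_sub_one, pow_one]
      ring
    have hmono : MonotoneOn (fun t => deriv (G ε) t ^ 2 / 2 - Fp f a (G ε t) +
        (1 + K) * ε * G ε t) (Iic 0) := by
      refine monotoneOn_of_deriv_nonneg (convex_Iic 0)
        (fun t _ => (hQ t).continuousAt.continuousWithinAt)
        (fun t _ => (hQ t).differentiableAt.differentiableWithinAt) ?_
      intro x hx
      rw [interior_Iic] at hx
      rw [(hQ x).deriv]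
      refine mul_nonneg (hG' ε hε x (le_of_lt hx)) ?_
      have h1 := hGf ε hε x
      have h2 := (abs_le.1 (hN.lip (G ε x) (g x))).2
      have h3 := mul_le_mul_of_nonneg_left (hGg ε hε x) hK.le
      linarith
    obtain ⟨s', hs', hgs'⟩ := hinf (a + ε) (by linarith)
    set r := min s' s with hr
    have hr0 : r ≤ 0 := (min_le_left _ _).trans hs'
    have h1 := hmono (mem_Iic.2 hr0) (mem_Iic.2 hs) (min_le_right _ _)
    simp only at h1
    have h2 : g r ≤ a + ε := (hgm r s' (min_le_left _ _) hs').trans hgs'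
    have h3 : G ε r ≤ a + 2 * ε := by
      have := (abs_le.1 (hGg ε hε r)).2
      linarith
    have h4 := hN.Fp_mono h3
    have h5 := hlow ε hε r hr0
    have h6 := hupp ε hε s hs
    have hη : 0 ≤ (1 + K) * ε := by positivity
    have h7 := mul_le_mul_of_nonneg_left h5 hη
    have h8 := mul_le_mul_of_nonneg_left h6 hη
    have h9 : 0 ≤ deriv (G ε) r ^ 2 / 2 := by positivity
    nlinarith
  -- the main inequality for small `ε`
  set ε₀ := (g s₁ - a) / 2 with hε₀
  have hs1 : s₁ ≤ 0 := hs12.trans hs2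
  have hg1 := (hg s₁ hs1).1
  have hε₀pos : 0 < ε₀ := by
    rw [hε₀]
    linarith
  set c₁ := Fp f a (g s₁ - ε₀) with hc₁
  have hc₁pos : 0 < c₁ := Fp_pos hN ha hf (by rw [hε₀]; linarith)
  set κ : ℝ → ℝ := fun ε => Fp f a (a + 2 * ε) + (1 + K) * ε * (2 * ε - a) with hκ
  have hmain : ∀ ε > 0, ε ≤ ε₀ →
      (1 - κ ε / c₁) * (s₂ - s₁) ≤ H (G ε s₂) - H (G ε s₁) := by
    intro ε hε hεε
    have hκ0 : 0 ≤ κ ε := by
      simp only [hκ]
      have h1 := hN.Fp_nonneg (a + 2 * ε)
      have h2 : 0 ≤ (1 + K) * ε * (2 * ε - a) := mul_nonneg (by positivity) (by linarith)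
      linarith
    have hGlow : ∀ s ∈ Icc s₁ s₂, g s₁ - ε₀ ≤ G ε s := by
      intro s hs
      have h1 := (abs_le.1 (hGg ε hε s)).1
      have h2 := hgm s₁ s hs.1 (hs.2.trans hs2)
      linarith
    have hag : a < g s₁ - ε₀ := by
      rw [hε₀]
      linarith
    have hφ : ∀ s ∈ Icc s₁ s₂, HasDerivAt (fun s => H (G ε s) - (1 - κ ε / c₁) * s)
        (1 / √(2 * Fp f a (G ε s)) * deriv (G ε) s - (1 - κ ε / c₁)) s := by
      intro s hs
      have h1 : HasDerivAt (fun s => H (G ε s)) (1 / √(2 * Fp f a (G ε s)) * deriv (G ε) s) s :=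
        (hH _ (hag.trans_le (hGlow s hs))).comp s ((hGd ε hε) s).hasDerivAt
      exact hsub h1
    have hmono : MonotoneOn (fun s => H (G ε s) - (1 - κ ε / c₁) * s) (Icc s₁ s₂) := by
      refine monotoneOn_of_deriv_nonneg (convex_Icc s₁ s₂)
        (fun t ht => (hφ t ht).continuousAt.continuousWithinAt)
        (fun t ht => (hφ t (interior_subset ht)).differentiableAt.differentiableWithinAt) ?_
      intro s hs
      have hs' := interior_subset hs
      rw [(hφ s hs').deriv]
      have hs0 : s ≤ 0 := hs'.2.trans hs2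
      have hy : c₁ ≤ Fp f a (G ε s) := hN.Fp_mono (hGlow s hs')
      have hypos : 0 < Fp f a (G ε s) := hc₁pos.trans_le hy
      set y := Fp f a (G ε s) with hydef
      have hD := hG' ε hε s hs0
      have hE := hen ε hε s hs0
      have hsq : 0 < √(2 * y) := by positivity
      have hsq2 : √(2 * y) ^ 2 = 2 * y := Real.sq_sqrt (by positivity)
      have key : (1 - κ ε / c₁) * √(2 * y) ≤ deriv (G ε) s := by
        rcases le_or_gt (1 - κ ε / c₁) 0 with hx | hx
        · exact (mul_nonpos_of_nonpos_of_nonneg hx hsq.le).trans hD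
        · set x := 1 - κ ε / c₁ with hxdef
          have hx1 : x ≤ 1 := by
            have : 0 ≤ κ ε / c₁ := by positivity
            linarith
          have h1 : (x * √(2 * y)) ^ 2 ≤ deriv (G ε) s ^ 2 := by
            rw [mul_pow, hsq2]
            have h2 : x ^ 2 ≤ x := by nlinarith
            have h3 : x * y ≤ y - κ ε := by
              have h4 : κ ε ≤ κ ε / c₁ * y := by
                rw [div_mul_eq_mul_div, le_div_iff₀ hc₁pos]
                exact mul_le_mul_of_nonneg_left hy hκ0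
              rw [hxdef]
              linarith
            have h5 : y - κ ε ≤ deriv (G ε) s ^ 2 / 2 := hE
            nlinarith
          exact (pow_le_pow_iff_left₀ (by positivity) hD (by norm_num)).1 h1
      have : 1 - κ ε / c₁ ≤ 1 / √(2 * y) * deriv (G ε) s := by
        rw [one_div, inv_mul_eq_div, le_div_iff₀ hsq]
        exact key
      linarith
    have h1 := hmono (left_mem_Icc.2 hs12) (right_mem_Icc.2 hs12) hs12
    simp only at h1
    linarith
  -- the limit
  have hlimG : ∀ s, Tendsto (fun ε => G ε s) (𝓝[>] 0) (𝓝 (g s)) := by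
    intro s
    rw [tendsto_iff_dist_tendsto_zero]
    refine squeeze_zero' (Eventually.of_forall fun _ => dist_nonneg) ?_
      (g := fun ε : ℝ => ε) (tendsto_id.mono_left nhdsWithin_le_nhds)
    filter_upwards [self_mem_nhdsWithin] with ε hε
    rw [Real.dist_eq]
    exact hGg ε hε s
  have hlimH : ∀ s, s ≤ 0 → Tendsto (fun ε => H (G ε s)) (𝓝[>] 0) (𝓝 (H (g s))) := by
    intro s hs
    exact (hH _ (hg s hs).1).continuousAt.tendsto.comp (hlimG s)
  have hlimκ : Tendsto (fun ε => (1 - κ ε / c₁) * (s₂ - s₁)) (𝓝[>] 0) (𝓝 (s₂ - s₁)) := by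
    have hFc : Continuous (Fp f a) := (hN.Fp_contDiff).continuous
    have hc : Continuous fun ε => (1 - κ ε / c₁) * (s₂ - s₁) := by
      simp only [hκ]
      fun_prop
    have h0 : (1 - κ 0 / c₁) * (s₂ - s₁) = s₂ - s₁ := by
      simp only [hκ]
      rw [mul_zero, add_zero, hN.Fp_left le_rfl]
      ring
    have := hc.tendsto 0
    simp only [h0] at this
    exact this.mono_left nhdsWithin_le_nhds
  refine le_of_tendsto_of_tendsto hlimκ ((hlimH s₂ hs2).sub (hlimH s₁ hs1)) ?_
  filter_upwards [self_mem_nhdsWithin, Ioc_mem_nhdsGT hε₀pos] with ε h1 h2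
  exact hmain ε h1 h2.2

end Pool.Agent.Helper40.HS3.ODE1
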